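import Pool.Agent.W425.GN.Defs3
import Pool.Agent.W486.GN.S2

/-!
# Project GN, part S2L: specialisation of the negation of `BadL`
-/

set_option autoImplicit false

namespace Pool.Agent.W701.GN

open MvPolynomial Pool.Agent.W425.GN Pool.Agent.W486.GN

section
variable {n : ℕ} {R : Type} [CommRing R]

lemma px_C (a : R) : px (C a : MvPolynomial (Fin n) R) = C a := by
  unfold px
  rw [rename_C]

lemma px_add (p q : MvPolynomial (Fin n) R) : px (p + q) = px p + px q := by
  unfold px
  rw [map_add]

lemma px_sub (p q : MvPolynomial (Fin n) R) : px (p - q) = px p - px q := by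
  unfold px
  rw [map_sub]

lemma px_sum {ι : Type} (S : Finset ι) (a : ι → R) (t : ι → MvPolynomial (Fin n) R) :
    px (∑ k ∈ S, a k • t k) = ∑ k ∈ S, a k • px (t k) := by
  unfold px
  rw [map_sum]
  refine Finset.sum_congr rfl fun k _ => ?_
  rw [map_smul]

lemma map_px {S : Type} [CommRing S] (e : R →+* S) (p : MvPolynomial (Fin n) R) :
    MvPolynomial.map e (px p) = px (MvPolynomial.map e p) := by
  unfold px
  rw [map_rename]

lemma act_px (hA1 : TaskA1) (t : MvPolynomial (Fin n) R) (Q : MvPolynomial (Sy n) R) (s : ℕ)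
    (φ : MvPolynomial (Fin n) R) : act (px t * Q) s φ = t * act Q s φ := by
  induction t using MvPolynomial.induction_on with
  | C a => rw [px_C, ← smul_eq_C_mul, act_smul, smul_eq_C_mul]
  | add p q hp hq => rw [px_add, add_mul, act_add, hp, hq, add_mul]
  | mul_X p i hp =>
    have h : px (p * X i) * Q = lx i (px p * Q) := by
      unfold px lx
      rw [map_mul, rename_X]
      simp only [Function.comp]
      ring
    rw [h, (hA1 (px p * Q) s φ).2.2.1 i, hp]
    ring

end

open Classical in
theorem s2L : TaskS2L := by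
  intro hSpec hW1 hG2 hA1 hA2 hA3 hA4 n K _ f α m hbad
  obtain ⟨B, G, hGB, hGdiv⟩ := hG2 hW1 (BI f α m) ((X none - C α) ^ m) (BI_stab hA1 f α m)
  obtain ⟨Z1, hZ1⟩ := hSpec f
  refine ⟨Z1 ∪ (G.biUnion fun P => P.support.image fun k => coeff k P), ?_⟩
  intro R _ ι hι hZ fR hfR αR hαR κ _ _ e he hf0 hB
  have hZ1' : ∀ z ∈ Z1, ∃ y, ι y = z := fun z hz => hZ z (by
    rw [Finset.mem_union]; exact Or.inl hz)
  have hZ2 : ∀ P ∈ G, ∃ P', MvPolynomial.map ι P' = P := by
    intro P hP
    refine lift_coeffs ι P fun k hk => hZ _ ?_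
    rw [Finset.mem_union]
    exact Or.inr (Finset.mem_biUnion.2 ⟨P, hP, Finset.mem_image.2 ⟨k, hk, rfl⟩⟩)
  have hmapu : MvPolynomial.map ι ((X none - C αR) ^ m : MvPolynomial (Sy n) R) =
      (X none - C α) ^ m := by
    rw [map_pow, map_sub, map_X, map_C, hαR]
  have hdiv := hGdiv ι hι hZ2 ((X none - C αR) ^ m) hmapu (MR ι (BI f α m))
    (MR_stab ι _ (BI_stab hA1 f α m)) (fun P' _ hP' => hP')
  -- the identity over `R`
  obtain ⟨ub, Pb, Qb, s0, hub, hPQ⟩ := hB
  obtain ⟨u, rfl⟩ := MvPolynomial.map_surjective e he ub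
  obtain ⟨P, rfl⟩ := MvPolynomial.map_surjective e he Pb
  obtain ⟨Q, rfl⟩ := MvPolynomial.map_surjective e he Qb
  obtain ⟨L, hL⟩ := hA2 fR
  obtain ⟨-, -, hmap, hsy, hsy0⟩ := @hA3 n R _
  have hact1 : ∀ (t : MvPolynomial (Fin n) R) (s : ℕ) (φ : MvPolynomial (Fin n) R),
      act (px t * (X none - C αR) ^ m) s φ = t * (C (((s : R) - αR) ^ m) * φ) := by
    intro t s φ
    rw [act_px hA1, act_uop hA1]
  set W : MvPolynomial (Sy n) R := px u * (X none - C αR) ^ m - L P -
    (X none - C αR) ^ (m + 1) * Q with hWdef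
  have hWact : ∀ s, act W s (fR ^ s) = u * (C (((s : R) - αR) ^ m) * fR ^ s) -
      act P s (fR ^ (s + 1)) - C (((s : R) - αR) ^ (m + 1)) * act Q s (fR ^ s) := by
    intro s
    rw [hWdef, act_sub, act_sub, hact1, act_pow hA1, hL, ← pow_succ']
  have hWe : ∀ s ≥ s0, MvPolynomial.map e (act W s (fR ^ s)) = 0 := by
    intro s hs
    have h1 := hPQ s hs
    have h2 : ∀ k : ℕ, MvPolynomial.map e (C (((s : R) - αR) ^ k) : MvPolynomial (Fin n) R) =
        C (((s : κ) - e αR) ^ k) := fun k => by
      rw [MvPolynomial.map_C]; congr 1; rw [map_pow, map_sub, map_natCast]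
    have h3 : ∀ k : ℕ, MvPolynomial.map e (fR ^ k) = (MvPolynomial.map e fR) ^ k := fun k =>
      map_pow _ _ _
    rw [hWact, map_sub, map_sub, map_mul, map_mul, map_mul, h2, h2, hmap, hmap, h3, h3, h1]
    ring
  obtain ⟨d, w, hw⟩ := hA4 fR W
  have hwe : w.map (MvPolynomial.map e) = 0 := by
    refine Polynomial.eq_zero_of_infinite_isRoot _ ?_
    have hsub : (Nat.cast : ℕ → MvPolynomial (Fin n) κ) '' {s | s0 ≤ s} ⊆
        {x | (w.map (MvPolynomial.map e)).IsRoot x} := by
      rintro _ ⟨s, hs, rfl⟩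
      show (w.map (MvPolynomial.map e)).eval (s : MvPolynomial (Fin n) κ) = 0
      have h1 := congrArg (MvPolynomial.map e) (hw s)
      rw [map_mul, hWe s hs, mul_zero, map_mul, ← Polynomial.eval_natCast_map, map_pow] at h1
      exact (mul_eq_zero.1 h1.symm).resolve_right (pow_ne_zero _ hf0)
    refine Set.Infinite.mono hsub ?_
    exact (Set.Ici_infinite s0).image (Nat.cast_injective.injOn)
  have hdom : IsDomain R := hι.isDomain ι
  have hfR0 : fR ≠ 0 := by
    rintro rfl
    exact hf0 (map_zero _)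
  set w2 : Polynomial (MvPolynomial (Fin n) R) :=
    w.comp (Polynomial.X + Polynomial.C (d : MvPolynomial (Fin n) R)) with hw2
  have hw2e : w2.map (MvPolynomial.map e) = 0 := by
    rw [hw2, Polynomial.map_comp, hwe, Polynomial.zero_comp]
  have hact2 : ∀ s, act W (s + d) (fR ^ (s + d)) = act (sy w2) s (fR ^ s) := by
    intro s
    rw [hsy]
    have h1 := hw (s + d)
    have h2 : w2.eval (s : MvPolynomial (Fin n) R) =
        w.eval ((s + d : ℕ) : MvPolynomial (Fin n) R) := by
      rw [hw2, Polynomial.eval_comp]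
      simp
    rw [h2]
    refine mul_left_cancel₀ (pow_ne_zero d hfR0) ?_
    rw [h1, pow_add]
    ring
  obtain ⟨T, hTe, s1, hT⟩ := hZ1 ι hι hZ1' fR hfR e d W (sy w2) (hsy0 e w2 hw2e)
    ⟨0, fun s _ => hact2 s⟩
  -- `px u * c - T` is in the ideal
  have hTM : (px u * (X none - C αR) ^ m - T) ∈ MR ι (BI f α m) := by
    rw [mem_MR, mem_BI]
    refine ⟨MvPolynomial.map ι P, MvPolynomial.map ι Q, s1, fun s hs => ?_⟩
    have h1 : act (px u * (X none - C αR) ^ m - T) s (fR ^ s) = act P s (fR ^ (s + 1)) +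
        C (((s : R) - αR) ^ (m + 1)) * act Q s (fR ^ s) := by
      rw [act_sub, hact1, ← hT s hs, hWact]
      ring
    have h2 := congrArg (MvPolynomial.map ι) h1
    have h3 : ∀ k : ℕ, MvPolynomial.map ι (C (((s : R) - αR) ^ k) : MvPolynomial (Fin n) R) =
        C (((s : K) - α) ^ k) := fun k => by
      rw [MvPolynomial.map_C]; congr 1; rw [map_pow, map_sub, map_natCast, hαR]
    have h4 : ∀ k : ℕ, MvPolynomial.map ι (fR ^ k) = f ^ k := fun k => by
      rw [map_pow, hfR]
    rw [hmap, map_add, map_mul, h3, hmap, hmap, h4, h4] at h2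
    exact h2
  -- decomposition of `T`
  choose Qm tm hQmB hQm using fun k : Sy n →₀ ℕ => hdiv (monomial k 1)
  set QT : MvPolynomial (Sy n) R := ∑ k ∈ T.support, coeff k T • Qm k with hQT
  set tT : MvPolynomial (Fin n) R := ∑ k ∈ T.support, coeff k T • tm k with htT
  have hQTB : ∀ k, k ∉ B → coeff k QT = 0 := by
    intro k hk
    rw [hQT, coeff_sum]
    refine Finset.sum_eq_zero fun j _ => ?_
    rw [coeff_smul]
    have : coeff k (Qm j) = 0 := by
      by_contra h; exact hk (hQmB j k (mem_support_iff.2 h))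
    rw [this, smul_zero]
  have hQTM : T - QT - px tT * (X none - C αR) ^ m ∈ MR ι (BI f α m) := by
    have h1 : T - QT - px tT * (X none - C αR) ^ m =
        ∑ k ∈ T.support, coeff k T • (monomial k 1 - Qm k - px (tm k) * (X none - C αR) ^ m) := by
      have h2 : T = ∑ k ∈ T.support, monomial k (coeff k T) :=
        (support_sum_monomial_coeff T).symm
      calc T - QT - px tT * (X none - C αR) ^ m = ∑ k ∈ T.support, monomial k (coeff k T) -
            ∑ k ∈ T.support, coeff k T • Qm k -
            ∑ k ∈ T.support, coeff k T • (px (tm k) * (X none - C αR) ^ m) := by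
            rw [← h2, ← hQT, htT, px_sum, Finset.sum_mul]
            congr 1
            refine Finset.sum_congr rfl fun k _ => ?_
            rw [smul_mul_assoc]
        _ = _ := by
          rw [← Finset.sum_sub_distrib, ← Finset.sum_sub_distrib]
          refine Finset.sum_congr rfl fun k _ => ?_
          rw [smul_sub, smul_sub, smul_monomial, smul_eq_mul, mul_one]
    rw [h1]
    exact Submodule.sum_mem _ fun k _ => Submodule.smul_mem _ _ (hQm k)
  have htTe : MvPolynomial.map e tT = 0 := by
    rw [htT, map_sum]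
    refine Finset.sum_eq_zero fun j _ => ?_
    have h1 : e (coeff j T) = 0 := by
      rw [← coeff_map, hTe, coeff_zero]
    rw [smul_eq_C_mul, map_mul, map_C, h1, C_0, zero_mul]
  -- the conclusion over `K`
  set t' : MvPolynomial (Fin n) K := MvPolynomial.map ι (u - tT) with ht'
  have hE : px t' * (X none - C α) ^ m - MvPolynomial.map ι QT ∈ BI f α m := by
    have h1 : px (u - tT) * (X none - C αR) ^ m - QT ∈ MR ι (BI f α m) := by
      have : px (u - tT) * (X none - C αR) ^ m - QT =
          (px u * (X none - C αR) ^ m - T) + (T - QT - px tT * (X none - C αR) ^ m) := by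
        rw [px_sub]
        ring
      rw [this]
      exact Submodule.add_mem _ hTM hQTM
    rw [mem_MR, map_sub, map_mul, map_px, hmapu] at h1
    exact h1
  have h0 := hGB (-(px t' * (X none - C α) ^ m - MvPolynomial.map ι QT))
    (Submodule.neg_mem _ hE) t' (by
      have heq : -(px t' * (X none - C α) ^ m - MvPolynomial.map ι QT) +
          px t' * (X none - C α) ^ m = MvPolynomial.map ι QT := by ring
      rw [heq]
      intro k hk
      by_contra hkB
      rw [mem_support_iff, coeff_map, hQTB k hkB, map_zero] at hk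
      exact hk rfl)
  have hmem : px t' * (X none - C α) ^ m ∈ BI f α m := by
    have h1 : px t' * (X none - C α) ^ m =
        px t' * (X none - C α) ^ m - MvPolynomial.map ι QT := by
      linear_combination h0
    rw [h1]
    exact hE
  have hcc : constantCoeff t' ≠ 0 := by
    rw [ht', constantCoeff_map]
    intro h
    have h1 : constantCoeff (u - tT) = 0 := hι (by rw [h, map_zero])
    have h2 : constantCoeff (MvPolynomial.map e (u - tT)) = 0 := by
      rw [constantCoeff_map, h1, map_zero]
    rw [map_sub, htTe, sub_zero, hub] at h2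
    exact one_ne_zero h2
  apply hbad
  obtain ⟨P1, Q1, s2, h5⟩ := (mem_BI _ _ _ _).1 hmem
  refine ⟨C (constantCoeff t')⁻¹ * t', (constantCoeff t')⁻¹ • P1, (constantCoeff t')⁻¹ • Q1, s2,
    ?_, ?_⟩
  · rw [map_mul, constantCoeff_C, inv_mul_cancel₀ hcc]
  · intro s hs
    have h6 := h5 s hs
    rw [act_px hA1, act_uop hA1] at h6
    rw [act_smul, act_smul, smul_eq_C_mul, smul_eq_C_mul, mul_assoc, h6]
    ring

end Pool.Agent.W701.GN
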